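import Pool.Agent.MP_6601f2_co.Geom

set_option autoImplicit false
open Module

namespace Pool.Agent.MP_6601f2_co

variable {K : Type*} [Field K] [Fintype K]
variable {V : Type*} [AddCommGroup V] [Module K V] [FiniteDimensional K V]

attribute [local instance] finite_submodule

open Classical in
/-- number of members of the family containing `T` -/
noncomputable def cnt (𝓕 : Finset (Submodule K V)) (T : Submodule K V) : ℕ :=
  (𝓕.filter (fun F => T ≤ F)).card

/-- the points of a subspace -/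
noncomputable def pts (S : Submodule K V) : Finset (Submodule K V) :=
  (Set.toFinite {Q : Submodule K V | Q ≤ S ∧ finrank K Q = 1}).toFinset

theorem mem_pts {S Q : Submodule K V} : Q ∈ pts S ↔ Q ≤ S ∧ finrank K Q = 1 := by
  simp [pts]

theorem card_pts_le (S : Submodule K V) : (pts S).card ≤ br (Fintype.card K) (finrank K S) :=
  card_pts S _ (fun _ hP => mem_pts.mp hP)

theorem cnt_le {𝓕 : Finset (Submodule K V)} {k : ℕ} (h𝓕 : ∀ F ∈ 𝓕, finrank K F = k)
    (T : Submodule K V) {t : ℕ} (ht : finrank K T = t) (hT : t ≤ k) :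
    (cnt 𝓕 T : ℚ) ≤ gaussBinom (Fintype.card K) (finrank K V - t) (k - t) := by
  classical
  subst ht
  apply card_above T (k - finrank K T)
  intro F hF
  rw [Finset.mem_filter] at hF
  refine ⟨hF.2, ?_⟩
  rw [h𝓕 F hF.1]
  omega

theorem cnt_cover {𝓕 : Finset (Submodule K V)} (T S : Submodule K V)
    (hS : ∀ F ∈ 𝓕, T ≤ F → F ⊓ S ≠ ⊥) : cnt 𝓕 T ≤ ∑ Q ∈ pts S, cnt 𝓕 (T ⊔ Q) := by
  classical
  unfold cnt
  refine le_trans (Finset.card_le_card ?_) (Finset.card_biUnion_le (s := pts S)
    (t := fun Q => 𝓕.filter (fun F => T ⊔ Q ≤ F)))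
  intro F hF
  rw [Finset.mem_filter] at hF
  obtain ⟨Q, hQ, hQ1⟩ := exists_point (hS F hF.1 hF.2)
  rw [Finset.mem_biUnion]
  refine ⟨Q, mem_pts.mpr ⟨hQ.trans inf_le_right, hQ1⟩, ?_⟩
  rw [Finset.mem_filter]
  exact ⟨hF.1, sup_le hF.2 (hQ.trans inf_le_left)⟩

theorem cnt_cover_le {𝓕 : Finset (Submodule K V)} {k : ℕ} (h𝓕 : ∀ F ∈ 𝓕, finrank K F = k)
    (T S : Submodule K V) (hTS : T ⊓ S = ⊥) (hS : ∀ F ∈ 𝓕, T ≤ F → F ⊓ S ≠ ⊥)
    {t s : ℕ} (ht : finrank K T = t) (hs : finrank K S = s) (htk : t + 1 ≤ k) :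
    (cnt 𝓕 T : ℚ) ≤ br (Fintype.card K) s *
      gaussBinom (Fintype.card K) (finrank K V - (t + 1)) (k - (t + 1)) := by
  have h1 : (cnt 𝓕 T : ℚ) ≤ ∑ Q ∈ pts S, (cnt 𝓕 (T ⊔ Q) : ℚ) := by
    exact_mod_cast cnt_cover T S hS
  have h2 : ∀ Q ∈ pts S, (cnt 𝓕 (T ⊔ Q) : ℚ) ≤
      gaussBinom (Fintype.card K) (finrank K V - (t + 1)) (k - (t + 1)) := by
    intro Q hQ
    rw [mem_pts] at hQ
    have hnot : ¬ Q ≤ T := by
      intro h
      have : Q ≤ T ⊓ S := le_inf h hQ.1
      rw [hTS, le_bot_iff] at this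
      rw [this, finrank_bot] at hQ
      exact absurd hQ.2 (by norm_num)
    apply cnt_le h𝓕 _ _ htk
    rw [fr_sup_point hQ.2 hnot, ht]
  refine h1.trans ((Finset.sum_le_card_nsmul _ _ _ h2).trans ?_)
  rw [nsmul_eq_mul]
  apply mul_le_mul_of_nonneg_right
  · rw [← hs]
    exact_mod_cast card_pts_le S
  · -- nonnegativity
    rw [← ht]
    have : finrank K T + 1 = finrank K T + 1 := rfl
    by_cases hb : ∃ Q : Submodule K V, finrank K Q = 1 ∧ ¬ Q ≤ T
    · obtain ⟨Q, hQ, hQT⟩ := hb
      have := card_above_exact (T ⊔ Q) (k - (finrank K T + 1))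
      rw [fr_sup_point hQ hQT] at this
      rw [← this]
      positivity
    · -- then the Gaussian binomial is evaluated at `n - (t+1) = 0`; it is `0` or `1`
      have hV : finrank K V ≤ finrank K T := by
        by_contra hlt
        push Not at hlt
        apply hb
        obtain ⟨B, hTB, -, hB⟩ := exists_mid (A := T) (W := ⊤) le_top
          (d := finrank K T + 1) (by omega) (by rw [finrank_top]; omega)
        have hne : ¬ B ≤ T := by
          intro h
          have := Submodule.finrank_mono h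
          omega
        obtain ⟨x, hxB, hxT⟩ := SetLike.not_le_iff_exists.mp hne
        have hx0 : x ≠ 0 := by
          rintro rfl
          exact hxT T.zero_mem
        refine ⟨K ∙ x, finrank_span_singleton hx0, ?_⟩
        rw [Submodule.span_singleton_le_iff_mem]
        exact hxT
      have : finrank K V - (finrank K T + 1) = 0 := by omega
      rw [this]
      cases hkk : k - (finrank K T + 1) with
      | zero => rw [gaussBinom_zero]; norm_num
      | succ m => rw [gaussBinom_zero_succ]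

end Pool.Agent.MP_6601f2_co
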