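import Mathlib

set_option autoImplicit false
open Module

namespace Pool.Agent.MP_6601f2_co

/-- The Gaussian binomial coefficient, by the product formula. -/
noncomputable def gaussBinom (q a b : ℕ) : ℚ :=
  ∏ j ∈ Finset.range b, (((q : ℚ) ^ (a - j) - 1) / ((q : ℚ) ^ (b - j) - 1))

theorem gaussBinom_zero (q a : ℕ) : gaussBinom q a 0 = 1 := by simp [gaussBinom]

theorem gaussBinom_succ (q a b : ℕ) :
    gaussBinom q (a + 1) (b + 1) = ((q : ℚ) ^ (a + 1) - 1) / ((q : ℚ) ^ (b + 1) - 1) * gaussBinom q a b := by
  unfold gaussBinom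
  rw [Finset.prod_range_succ']
  rw [mul_comm]
  simp only [Nat.sub_zero]
  congr 1
  apply Finset.prod_congr rfl
  intro j _
  rw [Nat.add_sub_add_right, Nat.add_sub_add_right]

theorem gaussBinom_zero_succ (q b : ℕ) : gaussBinom q 0 (b + 1) = 0 := by
  unfold gaussBinom
  rw [Finset.prod_range_succ']
  simp

section fr
variable {K : Type*} [Field K]
variable {V : Type*} [AddCommGroup V] [Module K V] [FiniteDimensional K V]

omit [FiniteDimensional K V] in
theorem fr_comap_subtype {P F : Submodule K V} (h : P ≤ F) :
    finrank K (P.comap F.subtype) = finrank K P :=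
  (Submodule.comapSubtypeEquivOfLe h).finrank_eq

omit [FiniteDimensional K V] in
theorem fr_map_subtype (F : Submodule K V) (P : Submodule K F) :
    finrank K (P.map F.subtype) = finrank K P :=
  (Submodule.equivSubtypeMap F P).finrank_eq.symm

theorem fr_map_mkQ {T F : Submodule K V} (h : T ≤ F) :
    finrank K (F.map T.mkQ) + finrank K T = finrank K F := by
  have h1 := LinearMap.finrank_range_add_finrank_ker (T.mkQ.domRestrict F)
  rw [LinearMap.range_domRestrict, LinearMap.ker_domRestrict, Submodule.ker_mkQ] at h1
  rw [← h1, ← fr_comap_subtype h]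

theorem fr_comap_mkQ (T : Submodule K V) (F : Submodule K (V ⧸ T)) :
    finrank K (F.comap T.mkQ) = finrank K F + finrank K T := by
  have h := fr_map_mkQ (T := T) (F := F.comap T.mkQ) (Submodule.le_comap_mkQ T F)
  rw [Submodule.map_comap_eq_self (by simp)] at h
  exact h.symm

end fr

section
variable {K : Type*} [Field K]
variable {V : Type*} [AddCommGroup V] [Module K V] [FiniteDimensional K V]

/-- subspaces of `F` -/
def subEquiv (F : Submodule K V) (k : ℕ) :
    {P : Submodule K V // P ≤ F ∧ finrank K P = k} ≃ {P : Submodule K F // finrank K P = k} where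
  toFun P := ⟨P.1.comap F.subtype, (fr_comap_subtype P.2.1).trans P.2.2⟩
  invFun P := ⟨P.1.map F.subtype, Submodule.map_subtype_le F P.1, (fr_map_subtype F P.1).trans P.2⟩
  left_inv P := by
    apply Subtype.ext
    simp only
    rw [Submodule.map_comap_subtype]
    exact inf_eq_right.mpr P.2.1
  right_inv P := by
    apply Subtype.ext
    simp only
    exact Submodule.comap_map_eq_of_injective F.injective_subtype P.1

/-- subspaces above `T` -/
noncomputable def supEquiv (T : Submodule K V) (k : ℕ) :
    {F : Submodule K V // T ≤ F ∧ finrank K F = k + finrank K T} ≃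
      {F : Submodule K (V ⧸ T) // finrank K F = k} where
  toFun F := ⟨F.1.map T.mkQ, by
    have := fr_map_mkQ F.2.1
    have h2 := F.2.2
    omega⟩
  invFun F := ⟨F.1.comap T.mkQ, Submodule.le_comap_mkQ T F.1, by
    rw [fr_comap_mkQ, F.2]⟩
  left_inv F := by
    apply Subtype.ext
    simp only
    rw [Submodule.comap_map_mkQ]
    exact sup_eq_right.mpr F.2.1
  right_inv F := by
    apply Subtype.ext
    simp only
    exact Submodule.map_comap_eq_self (by simp)

end

section
variable {K : Type*} [Field K] [Fintype K]

theorem card_points (V : Type*) [AddCommGroup V] [Module K V] :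
    Nat.card {P : Submodule K V // finrank K P = 1} =
    ∑ i ∈ Finset.range (finrank K V), Fintype.card K ^ i := by
  rw [← Nat.card_congr (Projectivization.equivSubmodule K V), Projectivization.card_of_finrank K V rfl,
    Nat.card_eq_fintype_card]

theorem q_gt_one : 1 < (Fintype.card K : ℚ) := by
  exact_mod_cast Fintype.one_lt_card (α := K)

theorem finite_submodule (V : Type*) [AddCommGroup V] [Module K V] [FiniteDimensional K V] :
    Finite (Submodule K V) := by
  have : Finite V := Module.finite_of_finite K
  infer_instance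

/-- Number of subspaces of dimension `k`. -/
theorem card_subspaces (k : ℕ) : ∀ (V : Type*) [AddCommGroup V] [Module K V]
    [FiniteDimensional K V],
    (Nat.card {F : Submodule K V // finrank K F = k} : ℚ) =
      gaussBinom (Fintype.card K) (finrank K V) k := by
  induction k with
  | zero =>
    intro V _ _ _
    rw [gaussBinom_zero]
    have : Nat.card {F : Submodule K V // finrank K F = 0} = 1 := by
      rw [Nat.card_eq_one_iff_unique]
      refine ⟨⟨fun a b => ?_⟩, ⟨⟨⊥, by simp⟩⟩⟩
      apply Subtype.ext
      rw [Submodule.finrank_eq_zero.mp a.2, Submodule.finrank_eq_zero.mp b.2]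
    rw [this]
    norm_num
  | succ k ih =>
    intro V _ _ _
    have hfin := finite_submodule (K := K) V
    have hq := q_gt_one (K := K)
    -- double count flags (point, subspace)
    let A := {F : Submodule K V // finrank K F = k + 1}
    let B := {P : Submodule K V // finrank K P = 1}
    have : Fintype A := Fintype.ofFinite _
    have : Fintype B := Fintype.ofFinite _
    have e : (Σ F : A, {P : Submodule K V // P ≤ F.1 ∧ finrank K P = 1}) ≃
        (Σ P : B, {F : Submodule K V // P.1 ≤ F ∧ finrank K F = k + 1}) :=
      { toFun := fun x => ⟨⟨x.2.1, x.2.2.2⟩, ⟨x.1.1, x.2.2.1, x.1.2⟩⟩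
        invFun := fun x => ⟨⟨x.2.1, x.2.2.2⟩, ⟨x.1.1, x.2.2.1, x.1.2⟩⟩
        left_inv := fun x => rfl
        right_inv := fun x => rfl }
    have hc := Nat.card_congr e
    rw [Nat.card_sigma, Nat.card_sigma] at hc
    have hA : ∀ F : A, Nat.card {P : Submodule K V // P ≤ F.1 ∧ finrank K P = 1} =
        ∑ i ∈ Finset.range (k + 1), Fintype.card K ^ i := by
      intro F
      rw [Nat.card_congr (subEquiv F.1 1), card_points, F.2]
    have hB : ∀ P : B, (Nat.card {F : Submodule K V // P.1 ≤ F ∧ finrank K F = k + 1} : ℚ) =
        gaussBinom (Fintype.card K) (finrank K V - 1) k := by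
      intro P
      have h1 := Nat.card_congr (supEquiv P.1 k)
      rw [P.2] at h1
      rw [h1, ih]
      congr 1
      have := Submodule.finrank_quotient_add_finrank P.1
      rw [P.2] at this
      omega
    rw [Finset.sum_congr rfl (fun F _ => hA F)] at hc
    rw [Finset.sum_const, Finset.card_univ, smul_eq_mul] at hc
    have hc' : (Fintype.card A : ℚ) * (∑ i ∈ Finset.range (k + 1), (Fintype.card K : ℚ) ^ i) =
        ∑ P : B, gaussBinom (Fintype.card K) (finrank K V - 1) k := by
      rw [← Finset.sum_congr rfl (fun P _ => hB P)]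
      exact_mod_cast hc
    rw [Finset.sum_const, Finset.card_univ, nsmul_eq_mul] at hc'
    rw [← Nat.card_eq_fintype_card, ← Nat.card_eq_fintype_card (α := B)] at hc'
    rw [show Nat.card B = _ from card_points V] at hc'
    change (Nat.card A : ℚ) = _
    have hden : ((Fintype.card K : ℚ) ^ (k + 1) - 1) ≠ 0 := by
      have : 1 < (Fintype.card K : ℚ) ^ (k + 1) := one_lt_pow₀ hq (by omega)
      linarith
    have hg1 : (∑ i ∈ Finset.range (k + 1), (Fintype.card K : ℚ) ^ i) * ((Fintype.card K : ℚ) - 1) =
        (Fintype.card K : ℚ) ^ (k + 1) - 1 := geom_sum_mul _ _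
    have hg2 : (∑ i ∈ Finset.range (finrank K V), (Fintype.card K : ℚ) ^ i) * ((Fintype.card K : ℚ) - 1) =
        (Fintype.card K : ℚ) ^ (finrank K V) - 1 := geom_sum_mul _ _
    push_cast at hc'
    have key : (Nat.card A : ℚ) * ((Fintype.card K : ℚ) ^ (k + 1) - 1) =
        ((Fintype.card K : ℚ) ^ (finrank K V) - 1) * gaussBinom (Fintype.card K) (finrank K V - 1) k := by
      rw [← hg1, ← hg2]
      linear_combination ((Fintype.card K : ℚ) - 1) * hc'
    rcases Nat.eq_zero_or_pos (finrank K V) with h0 | hpos
    · rw [h0] at key ⊢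
      rw [gaussBinom_zero_succ]
      simp only [pow_zero, sub_self, zero_mul, mul_eq_zero] at key
      rcases key with h | h
      · exact h
      · exact absurd h hden
    · obtain ⟨m, hm⟩ : ∃ m, finrank K V = m + 1 := ⟨finrank K V - 1, by omega⟩
      rw [hm] at key ⊢
      rw [gaussBinom_succ]
      rw [Nat.add_sub_cancel] at key
      field_simp
      linarith

end

end Pool.Agent.MP_6601f2_co
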