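import Pool.Agent.MP_6601f2_co.Count

set_option autoImplicit false
open Module

namespace Pool.Agent.MP_6601f2_co

variable {K : Type*} [Field K] [Fintype K]

/-- `[m] = 1 + q + ... + q^(m-1)`. -/
def br (q m : ℕ) : ℕ := ∑ i ∈ Finset.range m, q ^ i

theorem br_mul (q m : ℕ) : (br q m : ℚ) * ((q : ℚ) - 1) = (q : ℚ) ^ m - 1 := by
  unfold br
  push_cast
  exact geom_sum_mul _ _

theorem br_lt {q a b : ℕ} (hq : 1 < q) (h : a < b) : br q a < br q b := by
  unfold br
  apply Finset.sum_lt_sum_of_subset (i := a)
  · exact Finset.range_subset_range.mpr h.le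
  · exact Finset.mem_range.mpr h
  · simp
  · positivity
  · intros; positivity

theorem br_le {q a b : ℕ} (hq : 1 < q) (h : a ≤ b) : br q a ≤ br q b := by
  rcases h.eq_or_lt with rfl | h
  · exact le_rfl
  · exact (br_lt hq h).le

theorem le_of_br_le {q a b : ℕ} (hq : 1 < q) (h : br q a ≤ br q b) : a ≤ b := by
  by_contra hlt
  push Not at hlt
  exact absurd (br_lt hq hlt) (not_lt.mpr h)

section
variable {V : Type*} [AddCommGroup V] [Module K V] [FiniteDimensional K V]

theorem card_above_exact (T : Submodule K V) (j : ℕ) :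
    (Nat.card {F : Submodule K V // T ≤ F ∧ finrank K F = j + finrank K T} : ℚ) =
      gaussBinom (Fintype.card K) (finrank K V - finrank K T) j := by
  rw [Nat.card_congr (supEquiv T j), card_subspaces]
  congr 1
  have := Submodule.finrank_quotient_add_finrank T
  omega

theorem card_above (T : Submodule K V) (j : ℕ) (S : Finset (Submodule K V))
    (h : ∀ F ∈ S, T ≤ F ∧ finrank K F = j + finrank K T) :
    (S.card : ℚ) ≤ gaussBinom (Fintype.card K) (finrank K V - finrank K T) j := by
  rw [← card_above_exact]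
  have hfin := finite_submodule (K := K) V
  have : S.card = Nat.card S := by simp
  rw [this]
  have := Nat.card_le_card_of_injective
    (fun F : S => (⟨F.1, h F.1 F.2⟩ : {F : Submodule K V // T ≤ F ∧ finrank K F = j + finrank K T}))
    (fun a b hab => by
      apply Subtype.ext
      exact congrArg (fun x : {F : Submodule K V // T ≤ F ∧ finrank K F = j + finrank K T} => x.1) hab)
  exact_mod_cast this

theorem card_pts (W : Submodule K V) (S : Finset (Submodule K V))
    (h : ∀ P ∈ S, P ≤ W ∧ finrank K P = 1) : S.card ≤ br (Fintype.card K) (finrank K W) := by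
  have hfin := finite_submodule (K := K) V
  unfold br
  rw [← card_points, ← Nat.card_congr (subEquiv W 1)]
  have : S.card = Nat.card S := by simp
  rw [this]
  exact Nat.card_le_card_of_injective
    (fun F : S => (⟨F.1, h F.1 F.2⟩ : {P : Submodule K V // P ≤ W ∧ finrank K P = 1}))
    (fun a b hab => by
      apply Subtype.ext
      exact congrArg (fun x : {P : Submodule K V // P ≤ W ∧ finrank K P = 1} => x.1) hab)

omit [Fintype K] [FiniteDimensional K V] in
theorem exists_point {S : Submodule K V} (h : S ≠ ⊥) : ∃ Q ≤ S, finrank K Q = 1 := by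
  obtain ⟨x, hx, hx0⟩ := S.exists_mem_ne_zero_of_ne_bot h
  exact ⟨K ∙ x, (Submodule.span_singleton_le_iff_mem x S).mpr hx, finrank_span_singleton hx0⟩

omit [Fintype K] in
/-- A point not below `G` meets it trivially. -/
theorem point_inf {P G : Submodule K V} (hP : finrank K P = 1) (h : ¬ P ≤ G) : P ⊓ G = ⊥ := by
  by_contra hne
  obtain ⟨Q, hQ, hQ1⟩ := exists_point hne
  have hQP : Q ≤ P := hQ.trans inf_le_left
  have : Q = P := Submodule.eq_of_le_of_finrank_eq hQP (by rw [hQ1, hP])
  exact h (this ▸ hQ.trans inf_le_right)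

omit [Fintype K] in
theorem point_eq {P Q : Submodule K V} (hP : finrank K P = 1) (hQ : finrank K Q = 1) (h : P ≤ Q) :
    P = Q :=
  Submodule.eq_of_le_of_finrank_eq h (by rw [hQ, hP])

omit [Fintype K] in
theorem fr_sup_point {T Q : Submodule K V} (hQ : finrank K Q = 1) (h : ¬ Q ≤ T) :
    finrank K (T ⊔ Q : Submodule K V) = finrank K T + 1 := by
  have h1 := Submodule.finrank_sup_add_finrank_inf_eq T Q
  have h2 : T ⊓ Q = ⊥ := by rw [inf_comm]; exact point_inf hQ h
  rw [h2, finrank_bot, hQ] at h1
  omega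

omit [Fintype K] in
theorem exists_mid {A W : Submodule K V} (h : A ≤ W) {d : ℕ} (h1 : finrank K A ≤ d)
    (h2 : d ≤ finrank K W) : ∃ B, A ≤ B ∧ B ≤ W ∧ finrank K B = d := by
  obtain ⟨e, rfl⟩ : ∃ e, d = finrank K A + e := ⟨d - finrank K A, by omega⟩
  clear h1
  induction e with
  | zero => exact ⟨A, le_rfl, h, rfl⟩
  | succ e ih =>
    obtain ⟨B, hAB, hBW, hB⟩ := ih (by omega)
    have hne : ¬ W ≤ B := by
      intro hWB
      have := Submodule.finrank_mono hWB
      omega
    obtain ⟨x, hxW, hxB⟩ := SetLike.not_le_iff_exists.mp hne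
    have hx0 : x ≠ 0 := by
      rintro rfl
      exact hxB B.zero_mem
    refine ⟨B ⊔ K ∙ x, hAB.trans le_sup_left, sup_le hBW ?_, ?_⟩
    · exact (Submodule.span_singleton_le_iff_mem x W).mpr hxW
    · have e1 : finrank K (K ∙ x : Submodule K V) = 1 := finrank_span_singleton hx0
      have e2 : ¬ (K ∙ x : Submodule K V) ≤ B := by
        rw [Submodule.span_singleton_le_iff_mem]
        exact hxB
      rw [fr_sup_point e1 e2, hB]
      omega

omit [Fintype K] in
/-- two distinct points of a line span it -/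
theorem line_eq {l X R : Submodule K V} (hl : finrank K l = 2) (hX : finrank K X = 1)
    (hR : finrank K R = 1) (hXl : X ≤ l) (hRl : R ≤ l) (hne : X ≠ R) : X ⊔ R = l := by
  have hle : X ⊔ R ≤ l := sup_le hXl hRl
  refine Submodule.eq_of_le_of_finrank_eq hle ?_
  have hnR : ¬ R ≤ X := fun h => hne (point_eq hR hX h).symm
  rw [fr_sup_point hR hnR, hX, hl]

end

theorem gaussBinom_hyper {q : ℕ} (hq : 1 < q) (k : ℕ) :
    gaussBinom q (k + 1) k = (br q (k + 1) : ℚ) := by
  have hq' : (1 : ℚ) < q := by exact_mod_cast hq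
  induction k with
  | zero => rw [gaussBinom_zero]; simp [br]
  | succ k ih =>
    rw [gaussBinom_succ, ih]
    have h1 : (q : ℚ) ^ (k + 1) - 1 ≠ 0 := by
      have : 1 < (q : ℚ) ^ (k + 1) := one_lt_pow₀ hq' (by omega)
      linarith
    have h2 := br_mul q (k + 1)
    have h3 := br_mul q (k + 1 + 1)
    have h4 : (q : ℚ) - 1 ≠ 0 := by linarith
    rw [div_mul_eq_mul_div, div_eq_iff h1, ← h2, ← h3]
    ring

section
variable {V : Type*} [AddCommGroup V] [Module K V] [FiniteDimensional K V]

/-- Hyperplanes of `U` through `P` avoiding `X`. -/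
theorem card_hyper {U X P : Submodule K V} {k : ℕ} (hk : 2 ≤ k) (hU : finrank K U = k + 1)
    (hX : finrank K X = 1) (hP : finrank K P = 1) (hXU : X ≤ U) (hPU : P ≤ U) (hne : X ≠ P)
    (S : Finset (Submodule K V))
    (hS : ∀ G ∈ S, P ≤ G ∧ ¬ X ≤ G ∧ G ≤ U ∧ finrank K G = k) :
    S.card ≤ Fintype.card K ^ (k - 1) := by
  classical
  obtain ⟨m, rfl⟩ : ∃ m, k = m + 2 := ⟨k - 2, by omega⟩
  have hfin := finite_submodule (K := K) U
  have hft : Fintype (Submodule K U) := Fintype.ofFinite _
  set P' : Submodule K U := P.comap U.subtype with hP'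
  set X' : Submodule K U := X.comap U.subtype with hX'
  have hP1 : finrank K P' = 1 := (fr_comap_subtype hPU).trans hP
  have hX1 : finrank K X' = 1 := (fr_comap_subtype hXU).trans hX
  have hXP : ¬ X' ≤ P' := by
    intro h
    have h1 : X'.map U.subtype ≤ P'.map U.subtype := Submodule.map_mono h
    rw [hX', hP', Submodule.map_comap_subtype, Submodule.map_comap_subtype,
      inf_eq_right.mpr hXU, inf_eq_right.mpr hPU] at h1
    exact hne (point_eq hX hP h1)
  have hPX2 : finrank K (P' ⊔ X' : Submodule K U) = 2 := by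
    rw [fr_sup_point hX1 hXP, hP1]
  have hA := card_above_exact P' (m + 1)
  have hB := card_above_exact (P' ⊔ X') m
  rw [hP1, hU] at hA
  rw [hPX2, hU] at hB
  have e1 : m + 2 + 1 - 1 = m + 1 + 1 := by omega
  have e2 : m + 2 + 1 - 2 = m + 1 := by omega
  have hq : 1 < Fintype.card K := Fintype.one_lt_card
  rw [e1, gaussBinom_hyper hq] at hA
  rw [e2, gaussBinom_hyper hq] at hB
  have e3 : m + 1 + 1 = m + 2 := by omega
  rw [e3] at hA
  have hA' : Nat.card {F : Submodule K U // P' ≤ F ∧ finrank K F = m + 2} =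
    br (Fintype.card K) (m + 2) := by exact_mod_cast hA
  have hB' : Nat.card {F : Submodule K U // P' ⊔ X' ≤ F ∧ finrank K F = m + 2} =
    br (Fintype.card K) (m + 1) := by exact_mod_cast hB
  rw [Nat.card_eq_fintype_card, Fintype.card_subtype] at hA' hB'
  set A := Finset.univ.filter (fun F : Submodule K U => P' ≤ F ∧ finrank K F = m + 2) with hAdef
  set B := Finset.univ.filter (fun F : Submodule K U => P' ⊔ X' ≤ F ∧ finrank K F = m + 2) with hBdef
  have hBA : B ⊆ A := by
    intro F hF
    simp only [hAdef, hBdef, Finset.mem_filter, Finset.mem_univ, true_and] at hF ⊢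
    exact ⟨le_sup_left.trans hF.1, hF.2⟩
  have hcard : (A \ B).card = Fintype.card K ^ (m + 1) := by
    rw [Finset.card_sdiff_of_subset hBA, hA', hB']
    unfold br
    rw [Finset.sum_range_succ _ (m + 1)]
    omega
  have hinj : S.card ≤ (A \ B).card := by
    apply Finset.card_le_card_of_injOn (fun G => G.comap U.subtype)
    · intro G hG
      have hG' := hS G (by simpa using hG)
      simp only [Finset.coe_sdiff, Set.mem_sdiff, Finset.mem_coe, hAdef, hBdef, Finset.mem_filter,
        Finset.mem_univ, true_and]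
      refine ⟨⟨Submodule.comap_mono hG'.1, (fr_comap_subtype hG'.2.2.1).trans hG'.2.2.2⟩, ?_⟩
      rintro ⟨h, -⟩
      have h1 : X' ≤ G.comap U.subtype := le_sup_right.trans h
      have h2 : X'.map U.subtype ≤ (G.comap U.subtype).map U.subtype := Submodule.map_mono h1
      rw [hX', Submodule.map_comap_subtype, Submodule.map_comap_subtype,
        inf_eq_right.mpr hXU, inf_eq_right.mpr hG'.2.2.1] at h2
      exact hG'.2.1 h2
    · intro G hG G2 hG2 heq
      have hG' := hS G (by simpa using hG)
      have hG2' := hS G2 (by simpa using hG2)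
      have h2 : (G.comap U.subtype).map U.subtype = (G2.comap U.subtype).map U.subtype := by
        simp only at heq
        rw [heq]
      rw [Submodule.map_comap_subtype, Submodule.map_comap_subtype,
        inf_eq_right.mpr hG'.2.2.1, inf_eq_right.mpr hG2'.2.2.1] at h2
      exact h2
  rw [hcard] at hinj
  exact hinj

end

end Pool.Agent.MP_6601f2_co
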