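import Pool.Agent.MP_6601f2_co.Core

set_option autoImplicit false
open Module

namespace Pool.Agent.MP_6601f2_co

/-- numerical inequality `[k]^2 * binom(n-3,k-3) ≤ binom(n-2,k-2)` for `n ≥ 3k`. -/
theorem num_ineq {q n k : ℕ} (hq : 1 < q) (hk : 3 ≤ k) (hn : 3 * k ≤ n)
    (hnn : 0 ≤ gaussBinom q (n - 3) (k - 3)) :
    (br q k : ℚ) * ((br q k : ℚ) * gaussBinom q (n - 3) (k - 3)) ≤ gaussBinom q (n - 2) (k - 2) := by
  obtain ⟨m, rfl⟩ : ∃ m, k = m + 3 := ⟨k - 3, by omega⟩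
  obtain ⟨l, rfl⟩ : ∃ l, n = l + 3 := ⟨n - 3, by omega⟩
  have e1 : l + 3 - 2 = l + 1 := by omega
  have e2 : m + 3 - 2 = m + 1 := by omega
  have e3 : l + 3 - 3 = l := by omega
  have e4 : m + 3 - 3 = m := by omega
  rw [e1, e2, gaussBinom_succ]
  rw [e3, e4] at *
  have hq' : (2 : ℚ) ≤ q := by exact_mod_cast hq
  have hy : 1 < (q : ℚ) ^ (m + 1) := one_lt_pow₀ (by linarith) (by omega)
  have hbr : (br q (m + 3) : ℚ) ≤ (q : ℚ) ^ (m + 3) - 1 := by
    have h1 := br_mul q (m + 3)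
    have h2 : (0 : ℚ) ≤ br q (m + 3) := by positivity
    nlinarith
  have hbr0 : (0 : ℚ) ≤ br q (m + 3) := by positivity
  have hx : 1 < (q : ℚ) ^ (m + 3) := one_lt_pow₀ (by linarith) (by omega)
  have hpow : (q : ℚ) ^ (m + 3) * (q : ℚ) ^ (m + 3) * (q : ℚ) ^ (m + 1) ≤ (q : ℚ) ^ (l + 1) := by
    rw [← pow_add, ← pow_add]
    exact pow_le_pow_right₀ (by linarith) (by omega)
  have hmain : (br q (m + 3) : ℚ) * (br q (m + 3) : ℚ) ≤
      ((q : ℚ) ^ (l + 1) - 1) / ((q : ℚ) ^ (m + 1) - 1) := by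
    rw [le_div_iff₀ (by linarith)]
    have h1 : (br q (m + 3) : ℚ) * (br q (m + 3) : ℚ) ≤
        ((q : ℚ) ^ (m + 3) - 1) * ((q : ℚ) ^ (m + 3) - 1) :=
      mul_le_mul hbr hbr hbr0 (by linarith)
    have h2 : (br q (m + 3) : ℚ) * (br q (m + 3) : ℚ) * ((q : ℚ) ^ (m + 1) - 1) ≤
        ((q : ℚ) ^ (m + 3) - 1) * ((q : ℚ) ^ (m + 3) - 1) * ((q : ℚ) ^ (m + 1) - 1) :=
      mul_le_mul_of_nonneg_right h1 (by linarith)
    nlinarith
  calc (br q (m + 3) : ℚ) * ((br q (m + 3) : ℚ) * gaussBinom q l m)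
      = (br q (m + 3) : ℚ) * (br q (m + 3) : ℚ) * gaussBinom q l m := by ring
    _ ≤ _ := mul_le_mul_of_nonneg_right hmain hnn

variable {K : Type*} [Field K] [Fintype K]
variable {V : Type*} [AddCommGroup V] [Module K V] [FiniteDimensional K V]

attribute [local instance] finite_submodule

theorem core {k i : ℕ} (hi : 3 ≤ i) (hik : i ≤ k) (hn : 3 * k ≤ finrank K V)
    {𝓕 : Finset (Submodule K V)} (h𝓕 : ∀ F ∈ 𝓕, finrank K F = k)
    (hint : ∀ F ∈ 𝓕, ∀ G ∈ 𝓕, F ⊓ G ≠ ⊥)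
    (S : Finset (Submodule K V)) (hS1 : ∀ P ∈ S, finrank K P = 1)
    (hSB : ∀ P ∈ S, gaussBinom (Fintype.card K) (finrank K V - 2) (k - 2) +
      (Fintype.card K : ℚ) ^ (k - 1) * gaussBinom (Fintype.card K) (finrank K V - i - 1) (k - i) <
        cnt 𝓕 P) :
    S.card < br (Fintype.card K) (i + 1) := by
  classical
  have hq : 1 < Fintype.card K := Fintype.one_lt_card
  have hq' : (1 : ℚ) < Fintype.card K := by exact_mod_cast hq
  set q := Fintype.card K with hqdef
  set n := finrank K V with hndef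
  by_contra hcon
  push Not at hcon
  -- existence of subspaces of every dimension
  have hdim : ∀ d ≤ n, ∃ B : Submodule K V, finrank K B = d := by
    intro d hd
    obtain ⟨B, -, -, hB⟩ := exists_mid (A := (⊥ : Submodule K V)) (W := ⊤) bot_le (d := d)
      (by simp) (by rw [finrank_top]; exact hd)
    exact ⟨B, hB⟩
  have hgnn : ∀ d ≤ n, ∀ j, 0 ≤ gaussBinom q (n - d) j := by
    intro d hd j
    obtain ⟨B, hB⟩ := hdim d hd
    have := card_above_exact B j
    rw [hB] at this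
    rw [hndef, hqdef, ← this]
    positivity
  set N2 := gaussBinom q (n - 2) (k - 2) with hN2
  set N3 := gaussBinom q (n - 3) (k - 3) with hN3
  have hN3nn : 0 ≤ N3 := hgnn 3 (by omega) _
  have hnum : (br q k : ℚ) * ((br q k : ℚ) * N3) ≤ N2 :=
    num_ineq hq (by omega) hn hN3nn
  have hTnn : 0 ≤ (q : ℚ) ^ (k - 1) * gaussBinom q (n - i - 1) (k - i) := by
    apply mul_nonneg (by positivity)
    have := hgnn (i + 1) (by omega) (k - i)
    rw [show n - (i + 1) = n - i - 1 from by omega] at this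
    exact this
  have hSN2 : ∀ P ∈ S, N2 < cnt 𝓕 P := fun P hP => lt_of_le_of_lt (by linarith) (hSB P hP)
  have hbr4 : br q 3 < br q (i + 1) := br_lt hq (by omega)
  have hbr2 : br q 2 < br q 3 := br_lt hq (by omega)
  have hbr1 : br q 1 < br q 2 := br_lt hq (by omega)
  have hbr1' : br q 1 = 1 := by simp [br]
  -- no common point
  have hnc : ∀ X : Submodule K V, finrank K X = 1 → ∃ G ∈ 𝓕, ¬ X ≤ G := by
    intro X hX
    by_contra hall
    push Not at hall
    have hsub : S ⊆ {X} := by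
      intro P hP
      rw [Finset.mem_singleton]
      by_contra hne
      have hP1 := hS1 P hP
      have hPX : ¬ X ≤ P := fun h => hne (point_eq hX hP1 h).symm
      have h2 : finrank K (P ⊔ X : Submodule K V) = 2 := by rw [fr_sup_point hX hPX, hP1]
      have h3 : cnt 𝓕 P ≤ cnt 𝓕 (P ⊔ X) := by
        unfold cnt
        apply Finset.card_le_card
        intro F hF
        rw [Finset.mem_filter] at hF ⊢
        exact ⟨hF.1, sup_le hF.2 (hall F hF.1)⟩
      have h4 := cnt_le h𝓕 (P ⊔ X) h2 (by omega)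
      have h5 := hSN2 P hP
      have h6 : (cnt 𝓕 P : ℚ) ≤ cnt 𝓕 (P ⊔ X) := by exact_mod_cast h3
      exact absurd (lt_of_lt_of_le h5 (h6.trans h4)) (lt_irrefl _)
    have := Finset.card_le_card hsub
    rw [Finset.card_singleton] at this
    omega
  -- fat lines
  let fat : Submodule K V → Prop := fun l => finrank K l = 2 ∧ (br q k : ℚ) * N3 < cnt 𝓕 l
  have fat_meets : ∀ l, fat l → ∀ T : Submodule K V, finrank K T ≤ k → (∀ F ∈ 𝓕, F ⊓ T ≠ ⊥) →
      l ⊓ T ≠ ⊥ := by
    intro l hl T hT hcov hbot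
    have h1 := cnt_cover_le h𝓕 l T hbot (fun F hF _ => hcov F hF) hl.1 rfl (by omega)
    have h2 : (br q (finrank K T) : ℚ) * N3 ≤ (br q k : ℚ) * N3 := by
      apply mul_le_mul_of_nonneg_right _ hN3nn
      exact_mod_cast br_le hq hT
    exact absurd (lt_of_lt_of_le hl.2 (h1.trans h2)) (lt_irrefl _)
  have fat_member : ∀ l, fat l → ∀ G ∈ 𝓕, l ⊓ G ≠ ⊥ := by
    intro l hl G hG
    exact fat_meets l hl G (h𝓕 G hG).le (fun F hF => hint F hF G hG)
  have fat_fat : ∀ l, fat l → ∀ l', fat l' → l ⊓ l' ≠ ⊥ := by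
    intro l hl l' hl'
    apply fat_meets l hl l' (by rw [hl'.1]; omega)
    intro F hF
    rw [inf_comm]
    exact fat_member l' hl' F hF
  have fat_exists : ∀ P ∈ S, ∃ l, fat l ∧ P ≤ l := by
    intro P hP
    by_contra hno
    push Not at hno
    obtain ⟨G, hG, hPG⟩ := hnc P (hS1 P hP)
    have h1 : (cnt 𝓕 P : ℚ) ≤ ∑ Q ∈ pts G, (cnt 𝓕 (P ⊔ Q) : ℚ) := by
      exact_mod_cast cnt_cover P G (fun F hF _ => hint F hF G hG)
    have h2 : ∀ Q ∈ pts G, (cnt 𝓕 (P ⊔ Q) : ℚ) ≤ (br q k : ℚ) * N3 := by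
      intro Q hQ
      rw [mem_pts] at hQ
      by_contra hlt
      push Not at hlt
      have hQP : ¬ Q ≤ P := by
        intro h
        exact hPG ((point_eq hQ.2 (hS1 P hP) h) ▸ hQ.1)
      exact hno (P ⊔ Q) ⟨by rw [fr_sup_point hQ.2 hQP, hS1 P hP], hlt⟩ le_sup_left
    have h3 := Finset.sum_le_card_nsmul _ _ _ h2
    rw [nsmul_eq_mul] at h3
    have h4 : ((pts G).card : ℚ) * ((br q k : ℚ) * N3) ≤ (br q k : ℚ) * ((br q k : ℚ) * N3) := by
      apply mul_le_mul_of_nonneg_right _ (mul_nonneg (by positivity) hN3nn)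
      have := card_pts_le G
      rw [h𝓕 G hG] at this
      exact_mod_cast this
    exact absurd (lt_of_lt_of_le (hSN2 P hP) (h1.trans (h3.trans (h4.trans hnum)))) (lt_irrefl _)
  -- two different fat lines
  have hne : S.Nonempty := by
    rw [← Finset.card_pos]
    omega
  obtain ⟨P1, hP1⟩ := hne
  obtain ⟨l1, hl1, hPl1⟩ := fat_exists P1 hP1
  obtain ⟨P2, hP2, hPl2'⟩ : ∃ P2 ∈ S, ¬ P2 ≤ l1 := by
    by_contra hall
    push Not at hall
    have := card_pts l1 S (fun P hP => ⟨hall P hP, hS1 P hP⟩)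
    rw [hl1.1, ← hqdef] at this
    omega
  obtain ⟨l2, hl2, hPl2⟩ := fat_exists P2 hP2
  have hl12 : l1 ≠ l2 := by
    rintro rfl
    exact hPl2' hPl2
  obtain ⟨X, hX, hX1⟩ := exists_point (fat_fat l1 hl1 l2 hl2)
  have hXl1 : X ≤ l1 := hX.trans inf_le_left
  have hXl2 : X ≤ l2 := hX.trans inf_le_right
  -- any point of both l1 and l2 is X
  have huniq : ∀ R : Submodule K V, finrank K R = 1 → R ≤ l1 → R ≤ l2 → R = X := by
    intro R hR h1 h2
    by_contra hRX
    apply hl12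
    rw [← line_eq hl1.1 hX1 hR hXl1 h1 (Ne.symm hRX), ← line_eq hl2.1 hX1 hR hXl2 h2 (Ne.symm hRX)]
  have hT3 : finrank K (l1 ⊔ l2 : Submodule K V) ≤ 3 := by
    have h1 := Submodule.finrank_sup_add_finrank_inf_eq l1 l2
    have h2 : 1 ≤ finrank K (l1 ⊓ l2 : Submodule K V) := by
      rw [← hX1]
      exact Submodule.finrank_mono hX
    rw [hl1.1, hl2.1] at h1
    omega
  -- a fat line not through X lies in the plane
  have hplane : ∀ l, fat l → ¬ X ≤ l → l ≤ l1 ⊔ l2 := by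
    intro l hl hXl
    obtain ⟨R1, hR1, hR11⟩ := exists_point (fat_fat l hl l1 hl1)
    obtain ⟨R2, hR2, hR21⟩ := exists_point (fat_fat l hl l2 hl2)
    have hne : R1 ≠ R2 := by
      rintro rfl
      have := huniq R1 hR11 (hR1.trans inf_le_right) (hR2.trans inf_le_right)
      exact hXl (this ▸ hR1.trans inf_le_left)
    rw [← line_eq hl.1 hR11 hR21 (hR1.trans inf_le_left) (hR2.trans inf_le_left) hne]
    exact sup_le_sup (hR1.trans inf_le_right) (hR2.trans inf_le_right)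
  by_cases hstar : ∀ l, fat l → X ≤ l
  · -- star case
    obtain ⟨G0, hG0, hXG0⟩ := hnc X hX1
    set 𝓖 := 𝓕.filter (fun G => ¬ X ≤ G) with h𝓖
    have hG0' : G0 ∈ 𝓖 := Finset.mem_filter.mpr ⟨hG0, hXG0⟩
    set W : Submodule K V := 𝓖.inf (fun G => X ⊔ G) with hW
    have hXW : X ≤ W := Finset.le_inf (fun G _ => le_sup_left)
    have hPW : ∀ P ∈ S, P ≤ W := by
      intro P hP
      apply Finset.le_inf
      intro G hG
      rw [h𝓖, Finset.mem_filter] at hG
      obtain ⟨l, hl, hPl⟩ := fat_exists P hP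
      obtain ⟨R, hR, hR1⟩ := exists_point (fat_member l hl G hG.1)
      have hXR : X ≠ R := by
        rintro rfl
        exact hG.2 (hR.trans inf_le_right)
      have := line_eq hl.1 hX1 hR1 (hstar l hl) (hR.trans inf_le_left) hXR
      refine hPl.trans ?_
      rw [← this]
      exact sup_le_sup le_rfl (hR.trans inf_le_right)
    have hcardW := card_pts W S (fun P hP => ⟨hPW P hP, hS1 P hP⟩)
    have hWdim : i + 1 ≤ finrank K W := le_of_br_le hq (hcon.trans hcardW)
    obtain ⟨P, hP, hPX⟩ : ∃ P ∈ S, P ≠ X := by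
      by_contra hall
      push Not at hall
      have : S ⊆ {X} := fun P hP => Finset.mem_singleton.mpr (hall P hP)
      have := Finset.card_le_card this
      rw [Finset.card_singleton] at this
      omega
    have hPfr := hS1 P hP
    have hPnX : ¬ P ≤ X := fun h => hPX (point_eq hPfr hX1 h)
    have hXP2 : finrank K (X ⊔ P : Submodule K V) = 2 := by rw [fr_sup_point hPfr hPnX, hX1]
    obtain ⟨W0, hXPW0, hW0W, hW0⟩ := exists_mid (A := X ⊔ P) (W := W)
      (sup_le hXW (hPW P hP)) (d := i + 1) (by rw [hXP2]; omega) hWdim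
    -- split the degree
    have hsplit : cnt 𝓕 P ≤ cnt 𝓕 (X ⊔ P) + (𝓖.filter (fun G => P ≤ G)).card := by
      unfold cnt
      refine le_trans (Finset.card_le_card ?_) (Finset.card_union_le _ _)
      intro F hF
      rw [Finset.mem_filter] at hF
      rw [Finset.mem_union, Finset.mem_filter, Finset.mem_filter, h𝓖, Finset.mem_filter]
      by_cases hXF : X ≤ F
      · exact Or.inl ⟨hF.1, sup_le hXF hF.2⟩
      · exact Or.inr ⟨⟨hF.1, hXF⟩, hF.2⟩
    have hfirst := cnt_le h𝓕 (X ⊔ P) hXP2 (by omega)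
    set 𝓗 := 𝓖.filter (fun G => P ≤ G) with h𝓗
    have hmem : ∀ G ∈ 𝓗, G ∈ 𝓕 ∧ ¬ X ≤ G ∧ P ≤ G := by
      intro G hG
      rw [h𝓗, Finset.mem_filter, h𝓖, Finset.mem_filter] at hG
      exact ⟨hG.1.1, hG.1.2, hG.2⟩
    have hUfr : ∀ G ∈ 𝓗, finrank K (X ⊔ G : Submodule K V) = k + 1 := by
      intro G hG
      obtain ⟨h1, h2, -⟩ := hmem G hG
      rw [sup_comm, fr_sup_point hX1 h2, h𝓕 G h1]
    have himage : ((𝓗.image (fun G => X ⊔ G)).card : ℚ) ≤ gaussBinom q (n - i - 1) (k - i) := by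
      have := card_above W0 (k - i) (𝓗.image (fun G => X ⊔ G)) (by
        intro U hU
        rw [Finset.mem_image] at hU
        obtain ⟨G, hG, rfl⟩ := hU
        refine ⟨?_, ?_⟩
        · refine hW0W.trans ?_
          obtain ⟨h1, h2, -⟩ := hmem G hG
          exact Finset.inf_le (f := fun G => X ⊔ G) (Finset.mem_filter.mpr ⟨h1, h2⟩)
        · rw [hUfr G hG, hW0]
          omega)
      rw [hW0] at this
      rw [show n - i - 1 = n - (i + 1) from by omega]
      exact this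
    have hfib : 𝓗.card ≤ q ^ (k - 1) * (𝓗.image (fun G => X ⊔ G)).card := by
      apply Finset.card_le_mul_card_image
      intro U hU
      rw [Finset.mem_image] at hU
      obtain ⟨G1, hG1, rfl⟩ := hU
      apply card_hyper (U := X ⊔ G1) (X := X) (P := P) (by omega) (hUfr G1 hG1) hX1 hPfr
        le_sup_left ((hmem G1 hG1).2.2.trans le_sup_right) (Ne.symm hPX)
      intro G hG
      rw [Finset.mem_filter] at hG
      obtain ⟨h1, h2, h3⟩ := hmem G hG.1
      refine ⟨h3, h2, ?_, h𝓕 G h1⟩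
      rw [← hG.2]
      exact le_sup_right
    have hH : (𝓗.card : ℚ) ≤ (q : ℚ) ^ (k - 1) * gaussBinom q (n - i - 1) (k - i) := by
      have h1 : (𝓗.card : ℚ) ≤ (q : ℚ) ^ (k - 1) * ((𝓗.image (fun G => X ⊔ G)).card : ℚ) := by
        exact_mod_cast hfib
      exact h1.trans (mul_le_mul_of_nonneg_left himage (by positivity))
    have hfinal := hSB P hP
    have hsplit' : (cnt 𝓕 P : ℚ) ≤ cnt 𝓕 (X ⊔ P) + (𝓗.card : ℚ) := by exact_mod_cast hsplit
    linarith
  · -- plane case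
    push Not at hstar
    obtain ⟨l3, hl3, hXl3⟩ := hstar
    have hall : ∀ l, fat l → l ≤ l1 ⊔ l2 := by
      intro l hl
      by_cases hXl : X ≤ l
      · obtain ⟨R, hR, hR1⟩ := exists_point (fat_fat l hl l3 hl3)
        have hXR : X ≠ R := by
          rintro rfl
          exact hXl3 (hR.trans inf_le_right)
        rw [← line_eq hl.1 hX1 hR1 hXl (hR.trans inf_le_left) hXR]
        exact sup_le (hXl1.trans le_sup_left)
          ((hR.trans inf_le_right).trans (hplane l3 hl3 hXl3))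
      · exact hplane l hl hXl
    have h1 := card_pts (l1 ⊔ l2) S (fun P hP => by
      obtain ⟨l, hl, hPl⟩ := fat_exists P hP
      exact ⟨hPl.trans (hall l hl), hS1 P hP⟩)
    have h2 : br q (finrank K (l1 ⊔ l2 : Submodule K V)) ≤ br q 3 := br_le hq hT3
    rw [← hqdef] at h1
    omega

end Pool.Agent.MP_6601f2_co
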